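import Mathlib

/-!
Project XI (MP_023270_nt): definitions and statements of the tasks.
-/

open Complex MeasureTheory Filter Topology

namespace W536.XI

/-- the kernel Phi of the problem -/
noncomputable def Phi (t : ℝ) : ℝ :=
  2 * ∑' n : ℕ, (2 * Real.pi ^ 2 * ((n : ℝ) + 1) ^ 4 * Real.exp (9 * t / 2)
    - 3 * Real.pi * ((n : ℝ) + 1) ^ 2 * Real.exp (5 * t / 2)) *
      Real.exp (-(Real.pi * ((n : ℝ) + 1) ^ 2 * Real.exp (2 * t)))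

/-- the function Xi_lambda of the problem -/
noncomputable def XiL (lam : ℝ) (z : ℂ) : ℂ :=
  ∫ t : ℝ, (Phi t : ℂ) * cexp (lam * (t : ℂ) ^ 2) * cexp (I * z * t)

/-- F(s) = Xi_{-1}(-i (s - 1/2)) -/
noncomputable def F (s : ℂ) : ℂ := XiL (-1) (-I * (s - 1 / 2))

/-- h(w) = (w-1) Gamma(1+w/2) pi^(-w/2) -/
noncomputable def hh (w : ℂ) : ℂ :=
  (w - 1) * Gamma (1 + w / 2) * cexp (-(w / 2) * (Real.log Real.pi : ℝ))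

/-- L n = log (n+1) -/
noncomputable def L (n : ℕ) : ℝ := Real.log ((n : ℝ) + 1)

/-- the first summand of Phi -/
noncomputable def phi1 (x : ℝ) : ℝ :=
  2 * (2 * Real.pi ^ 2 * Real.exp (9 * x / 2) - 3 * Real.pi * Real.exp (5 * x / 2)) *
    Real.exp (-(Real.pi * Real.exp (2 * x)))

/-- G(s) = int phi1(x) e^{-x^2 + (s-1/2)x} dx -/
noncomputable def G (s : ℂ) : ℂ :=
  ∫ x : ℝ, (phi1 x : ℂ) * cexp (-(x : ℂ) ^ 2 + (s - 1 / 2) * x)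

/-- the n-th summand of F -/
noncomputable def Tn (n : ℕ) (s : ℂ) : ℂ :=
  cexp (-(s * L n) - (L n : ℂ) ^ 2) * G (s + 2 * L n)

/-- D(s) = sum n^{-s} e^{-log^2 n} -/
noncomputable def D (s : ℂ) : ℂ := ∑' n : ℕ, cexp (-(s * L n) - (L n : ℂ) ^ 2)

/-- Dabs(b) = sum n^b e^{-log^2 n} -/
noncomputable def Dabs (b : ℝ) : ℝ := ∑' n : ℕ, Real.exp (b * L n - L n ^ 2)

/-- local expansion of h at iy -/
def GamAt (C y : ℝ) (l : ℂ) : Prop :=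
  ‖l - (Real.log y / 2 : ℝ)‖ ≤ C ∧ Real.exp (-y) ≤ ‖hh (I * y)‖ ∧
    ∀ d : ℂ, ‖d‖ ≤ y / 8 → ∃ e : ℂ, ‖e‖ ≤ C * ‖d‖ ^ 2 / y ∧
      hh (I * y + d) = hh (I * y) * cexp (l * d + e)

/-- task GAM -/
def S_GAM : Prop := ∃ C y0 : ℝ, 0 < C ∧ 1 ≤ y0 ∧ ∀ y : ℝ, y0 ≤ y → ∃ l : ℂ, GamAt C y l

/-- task GREP -/
def S_GREP : Prop :=
  (∀ s : ℂ, Integrable (fun v : ℝ => hh (2 + I * v) * cexp ((2 + I * v - s) ^ 2 / 4)) ∧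
    G s = 1 / (2 * Real.sqrt Real.pi : ℝ) *
      ∫ v : ℝ, hh (2 + I * v) * cexp ((2 + I * v - s) ^ 2 / 4)) ∧
  (∀ v : ℝ, ‖hh (2 + I * v)‖ ≤ 1 + |v|) ∧ Differentiable ℂ G

/-- task FREP -/
def S_FREP : Prop :=
  (∀ s : ℂ, Summable (fun n => ‖Tn n s‖) ∧ F s = ∑' n, Tn n s) ∧ Differentiable ℂ (XiL (-1))

/-- task GASY: asymptotics of G -/
def S_GASY : Prop := ∀ C C2 : ℝ, ∃ (y1 : ℝ) (K : ℕ), ∀ y : ℝ, y1 ≤ y → ∀ l : ℂ, GamAt C y l →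
  ∀ s : ℂ, ‖s - I * y‖ ≤ C2 * Real.log y ^ 2 →
    ‖G s - hh (I * y) * cexp (l * (s - I * y) - l ^ 2)‖ ≤
      Real.log y ^ K / y * ‖hh (I * y) * cexp (l * (s - I * y) - l ^ 2)‖

/-- task CR: crude bound of the summands -/
def S_CR : Prop := ∀ C C1 : ℝ, ∃ y1 K : ℝ, ∀ y : ℝ, y1 ≤ y → ∀ l : ℂ, GamAt C y l →
  ∀ s : ℂ, ‖s - I * y‖ ≤ C1 * Real.log y → ∀ n : ℕ,
    ‖Tn n s‖ ≤ ‖hh (I * y)‖ * Real.exp (K * Real.log y ^ 2) / ((n : ℝ) + 1) ^ 2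

/-- task APX: F near iy is an exponential times D, up to a small error -/
def S_APX : Prop := ∀ C1 : ℝ, ∃ (y1 C : ℝ) (K : ℕ), ∀ y : ℝ, y1 ≤ y → ∃ l H : ℂ, H ≠ 0 ∧
  ‖l - (Real.log y / 2 : ℝ)‖ ≤ C ∧ ∀ s : ℂ, ‖s - I * y‖ ≤ C1 * Real.log y →
    ‖F (s + 2 * l) - H * cexp (l * s) * D s‖ ≤ ‖H * cexp (l * s)‖ *
      (Real.log y ^ K / y * Dabs (-s.re) + Real.exp (-(Real.log y) ^ 2))

/-- task DABS -/
def S_DABS : Prop :=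
  (∀ b : ℝ, Summable (fun n : ℕ => Real.exp (b * L n - L n ^ 2))) ∧
  (∀ b : ℝ, Dabs b ≤ Real.exp (b ^ 2 / 4 + |b| + 2)) ∧
  (∀ a b : ℝ, a ≤ b → Dabs a ≤ Dabs b) ∧
  (∀ s : ℂ, ‖D s‖ ≤ Dabs (-s.re)) ∧
  (∀ s : ℂ, 2 ≤ s.re → ‖D s - 1‖ ≤ 3 * Real.exp (-(s.re * Real.log 2)))

/-- the good heights -/
def Good (T : ℝ) : Set ℝ := {y : ℝ | y ∈ Set.Icc T (2 * T) ∧ ∃ u : ℝ, |u - y| ≤ Real.log T / 2 ∧
  Real.exp ((Real.log T / 20) ^ 2 / 4) / 2 ≤ ‖D (-(Real.log T / 20 : ℝ) + I * u)‖}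

/-- task MOM: a positive proportion of the heights is good -/
def S_MOM : Prop := ∃ mu T0 : ℝ, 0 < mu ∧ ∀ T : ℝ, T0 ≤ T → ∃ A : Set ℝ, MeasurableSet A ∧
  A ⊆ Good T ∧ ENNReal.ofReal (mu * T) ≤ volume A

/-- MOM-A: the Dirichlet polynomial, its local mean square -/
noncomputable def P (M : ℕ) (a : ℕ → ℝ) (u : ℝ) : ℂ :=
  ∑ n ∈ Finset.Icc 1 M, (a n : ℂ) * cexp (-(I * u * (Real.log n : ℝ)))

/-- local mean square -/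
noncomputable def Q (M : ℕ) (a : ℕ → ℝ) (r y : ℝ) : ℝ := ∫ x in (-r)..r, ‖P M a (y + x)‖ ^ 2

/-- the kernel -/
noncomputable def kk (r x : ℝ) : ℝ := if x = 0 then 2 * r else min (2 * r) (2 / |x|)

/-- the quadruple sum -/
noncomputable def quad (M : ℕ) (a : ℕ → ℝ) (r : ℝ) : ℝ :=
  ∑ m ∈ Finset.Icc 1 M, ∑ n ∈ Finset.Icc 1 M, ∑ m' ∈ Finset.Icc 1 M, ∑ n' ∈ Finset.Icc 1 M,
    if m * m' = n * n' then a m * a n * a m' * a n' * kk r (Real.log m - Real.log n) ^ 2 else 0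

/-- task MOMA -/
def S_MOMA : Prop := ∀ (M : ℕ) (a : ℕ → ℝ) (r T : ℝ), (∀ n, 0 ≤ a n) → 0 < r → 0 < T → 1 ≤ M →
  2 * r * T * (∑ n ∈ Finset.Icc 1 M, a n ^ 2) - 8 * r * M * (∑ n ∈ Finset.Icc 1 M, a n) ^ 2 ≤
      (∫ y in T..(2 * T), Q M a r y) ∧
  (∫ y in T..(2 * T), Q M a r y ^ 2) ≤
    T * quad M a r + 32 * r ^ 2 * M ^ 2 * (∑ n ∈ Finset.Icc 1 M, a n) ^ 4

/-- task MOMB -/
def S_MOMB : Prop := ∀ (M : ℕ) (a : ℕ → ℝ) (r : ℝ), (∀ n, 0 ≤ a n) → 0 < r →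
  quad M a r ≤ (2 * r) ^ 2 * (∑ g ∈ Finset.Icc 1 M, a g ^ 2) ^ 2 +
    ∑ p ∈ Finset.Icc 1 M, ∑ q ∈ Finset.Icc 1 M, if p = q then 0 else
      kk r (Real.log p - Real.log q) ^ 2 * (∑ g ∈ Finset.Icc 1 M, a (g * p) * a (g * q)) ^ 2

/-- the coefficients -/
noncomputable def ac (b : ℝ) (n : ℕ) : ℝ := Real.exp (b * Real.log n - Real.log n ^ 2)

/-- task MOMC -/
def S_MOMC : Prop := ∃ c C : ℝ, 0 < c ∧ ∀ b : ℝ, 2 ≤ b → ∀ M : ℕ, Real.exp (b + 3) ≤ M →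
  (∀ p q : ℕ, 1 ≤ p → 1 ≤ q → (∑ g ∈ Finset.Icc 1 M, ac b (g * p) * ac b (g * q)) ≤
    C * Real.exp (b ^ 2 / 2 + b / 2) * (Real.exp (-(1 / 2) * (Real.log p - Real.log q) ^ 2) /
      Real.sqrt (p * q))) ∧
  c * Real.exp (b ^ 2 / 2 + b / 2) ≤ ∑ n ∈ Finset.Icc 1 M, ac b n ^ 2 ∧
  (∑ n ∈ Finset.Icc 1 M, ac b n) ≤ C * Real.exp (b ^ 2 / 4 + b / 2) ∧
  (∀ u : ℝ, ‖D (-(b : ℂ) + I * u) - P M (ac b) u‖ ≤ C)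

/-- task MOMD -/
def S_MOMD : Prop := ∃ C : ℝ, ∀ (M : ℕ) (r : ℝ), 1 ≤ M → 1 ≤ r →
  (∑ p ∈ Finset.Icc 1 M, ∑ q ∈ Finset.Icc 1 M, if p = q then 0 else
    kk r (Real.log p - Real.log q) ^ 2 *
      (Real.exp (-(1 / 2) * (Real.log p - Real.log q) ^ 2) / Real.sqrt (p * q)) ^ 2) ≤
    C * r * (1 + Real.log M)

/-- task ZF: splitting off the zeros in a disc -/
def S_ZF : Prop := ∀ f : ℂ → ℂ, Differentiable ℂ f → (∃ z, f z ≠ 0) → ∀ R : ℝ,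
  ∃ (S : Finset ℂ) (g : ℂ → ℂ), (∀ a, a ∈ S ↔ ‖a‖ ≤ R ∧ f a = 0) ∧ Differentiable ℂ g ∧
    (∀ z, ‖z‖ ≤ R → g z ≠ 0) ∧ (∀ a ∈ S, analyticOrderAt f a ≠ ⊤) ∧
    ∀ z, f z = (∏ a ∈ S, (z - a) ^ (analyticOrderNatAt f a)) * g z

/-- task UB: upper bound for the number of zeros -/
def S_UB : Prop := ∀ (M : ℝ) (f : ℂ → ℂ), Differentiable ℂ f → 1 / 2 ≤ ‖f 0‖ →
  (∀ z, ‖z‖ ≤ 3 → ‖f z‖ ≤ Real.exp M) → ∀ S : Finset ℂ, (∀ a, a ∈ S ↔ ‖a‖ ≤ 1 ∧ f a = 0) →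
    ∑ a ∈ S, (analyticOrderNatAt f a : ℝ) ≤ 2 * (M + 1)

/-- task LC: lower bound for the number of zeros -/
def S_LC : Prop := ∀ c0 : ℝ, 0 < c0 → ∃ dl M0 : ℝ, 0 < dl ∧ ∀ M : ℝ, M0 ≤ M → ∀ f : ℂ → ℂ,
  Differentiable ℂ f → (∀ z, ‖z‖ ≤ 1 / 2 → ‖f z - 1‖ ≤ 1 / 2) →
  (∀ z, ‖z‖ ≤ 3 / 2 → ‖f z‖ ≤ Real.exp M) → (∃ z, ‖z‖ ≤ 6 / 5 ∧ Real.exp (c0 * M) ≤ ‖f z‖) →
  ∀ S : Finset ℂ, (∀ a, a ∈ S ↔ ‖a‖ ≤ 7 / 5 ∧ f a = 0) →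
    dl * M ≤ ∑ a ∈ S, (analyticOrderNatAt f a : ℝ)

/-- number of real zeros z with |z| ≤ T, counted with multiplicity -/
noncomputable def NR (lam T : ℝ) : ENNReal :=
  ∑' z : {z : ℂ // XiL lam z = 0 ∧ z.im = 0 ∧ ‖z‖ ≤ T}, ((analyticOrderAt (XiL lam) z : ℕ∞) : ENNReal)

/-- number of zeros z with |Re z| ≤ T, counted with multiplicity -/
noncomputable def NA (lam T : ℝ) : ENNReal :=
  ∑' z : {z : ℂ // XiL lam z = 0 ∧ |z.re| ≤ T}, ((analyticOrderAt (XiL lam) z : ℕ∞) : ENNReal)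

/-- task ORD: orders of zeros under affine substitutions and non-vanishing factors -/
def S_ORD : Prop := ∀ (X E : ℂ → ℂ), Differentiable ℂ X → Differentiable ℂ E → (∀ z, E z ≠ 0) →
  ∀ a b : ℂ, b ≠ 0 → ∀ z : ℂ,
    analyticOrderAt (fun w => X (a + b * w) * E w) z = analyticOrderAt X (a + b * z)

/-- number of zeros of Xi_{-1} below the real axis with |Re z - y| ≤ r, with multiplicity -/
noncomputable def cntLow (y r : ℝ) : ENNReal :=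
  ∑' z : {z : ℂ // XiL (-1) z = 0 ∧ z.im < 0 ∧ |z.re - y| ≤ r},
    ((analyticOrderAt (XiL (-1)) z : ℕ∞) : ENNReal)

/-- number of real zeros of Xi_{-1} with |Re z - y| ≤ r, with multiplicity -/
noncomputable def cntReal (y r : ℝ) : ENNReal :=
  ∑' z : {z : ℂ // XiL (-1) z = 0 ∧ z.im = 0 ∧ |z.re - y| ≤ r},
    ((analyticOrderAt (XiL (-1)) z : ℕ∞) : ENNReal)

/-- task LOWL: many zeros below the real axis near every good height -/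
def S_LOWL : Prop := ∃ dl T0 : ℝ, 0 < dl ∧ ∀ T : ℝ, T0 ≤ T → ∀ y ∈ Good T,
  ENNReal.ofReal (dl * Real.log T ^ 2) ≤ cntLow y (2 * Real.log T)

/-- task UPL: local upper bound for the number of real zeros -/
def S_UPL : Prop := ∃ C y1 : ℝ, ∀ y : ℝ, y1 ≤ y →
  cntReal y (2 * Real.log y) ≤ ENNReal.ofReal (C * Real.log y ^ 2)

/-- task LOWG -/
def S_LOWG : Prop := ∃ c T0 : ℝ, 0 < c ∧ ∀ T : ℝ, T0 ≤ T →
  ENNReal.ofReal (c * (T * Real.log T)) ≤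
    ∑' z : {z : ℂ // XiL (-1) z = 0 ∧ z.im < 0 ∧ |z.re| ≤ T},
      ((analyticOrderAt (XiL (-1)) z : ℕ∞) : ENNReal)

/-- task UPG -/
def S_UPG : Prop := ∃ C T0 : ℝ, ∀ T : ℝ, T0 ≤ T →
  NR (-1) T ≤ ENNReal.ofReal (C * (T * Real.log T))

end W536.XI
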