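import Pool.Agent.W536.XI.Stm

open Complex Filter Topology

namespace W536.XI

theorem L_nonneg (n : ℕ) : 0 ≤ L n := by
  unfold L
  apply Real.log_nonneg
  have : (0 : ℝ) ≤ n := Nat.cast_nonneg n
  linarith

theorem exp_neg_two_L (n : ℕ) : Real.exp (-(2 * L n)) = 1 / ((n : ℝ) + 1) ^ 2 := by
  have h : (0 : ℝ) < (n : ℝ) + 1 := by positivity
  unfold L
  rw [Real.exp_neg, show 2 * Real.log ((n : ℝ) + 1) = Real.log (((n : ℝ) + 1) ^ 2) by
    rw [Real.log_pow]; norm_num, Real.exp_log (by positivity), one_div]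

theorem summable_sq : Summable (fun n : ℕ => 1 / ((n : ℝ) + 1) ^ 2) := by
  have h := (summable_nat_add_iff (f := fun n : ℕ => 1 / (n : ℝ) ^ 2) 1).2
    (Real.summable_one_div_nat_pow.2 (by norm_num))
  simpa using h

theorem tsum_sq_le : (∑' n : ℕ, 1 / ((n : ℝ) + 1) ^ 2) ≤ 1.654 := by
  have h : HasSum (fun n : ℕ => 1 / (n : ℝ) ^ 2) (Real.pi ^ 2 / 6) := hasSum_zeta_two
  have h1 := (hasSum_nat_add_iff' (f := fun n : ℕ => 1 / (n : ℝ) ^ 2) 1).2 h
  have h2 : (∑' n : ℕ, 1 / ((n : ℝ) + 1) ^ 2) = Real.pi ^ 2 / 6 := by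
    have h3 := h1.tsum_eq
    simpa using h3
  rw [h2]
  have h4 := Real.pi_lt_d2
  have h5 := Real.pi_pos
  nlinarith

theorem term_le (b : ℝ) (n : ℕ) :
    Real.exp (b * L n - L n ^ 2) ≤ Real.exp (b ^ 2 / 4 + |b| + 1) * (1 / ((n : ℝ) + 1) ^ 2) := by
  rw [← exp_neg_two_L, ← Real.exp_add]
  apply Real.exp_le_exp.2
  nlinarith [sq_nonneg (L n - b / 2 - 1), le_abs_self b]

theorem summable_term (b : ℝ) : Summable (fun n : ℕ => Real.exp (b * L n - L n ^ 2)) :=
  Summable.of_nonneg_of_le (fun n => (Real.exp_pos _).le) (term_le b) (summable_sq.mul_left _)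

theorem norm_cterm (s : ℂ) (n : ℕ) :
    ‖cexp (-(s * L n) - (L n : ℂ) ^ 2)‖ = Real.exp (-s.re * L n - L n ^ 2) := by
  rw [Complex.norm_exp]
  congr 1
  have : ((L n : ℂ) ^ 2) = ((L n ^ 2 : ℝ) : ℂ) := by push_cast; ring
  rw [this, sub_re, neg_re, ofReal_re, re_mul_ofReal]
  ring

theorem dabs : S_DABS := by
  refine ⟨summable_term, ?_, ?_, ?_, ?_⟩
  · intro b
    unfold Dabs
    calc (∑' n : ℕ, Real.exp (b * L n - L n ^ 2))
        ≤ ∑' n : ℕ, Real.exp (b ^ 2 / 4 + |b| + 1) * (1 / ((n : ℝ) + 1) ^ 2) :=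
          Summable.tsum_le_tsum (term_le b) (summable_term b) (summable_sq.mul_left _)
      _ = Real.exp (b ^ 2 / 4 + |b| + 1) * ∑' n : ℕ, 1 / ((n : ℝ) + 1) ^ 2 := tsum_mul_left
      _ ≤ Real.exp (b ^ 2 / 4 + |b| + 1) * Real.exp 1 := by
          have h1 := tsum_sq_le
          have h2 := Real.exp_one_gt_d9
          gcongr
          linarith
      _ = Real.exp (b ^ 2 / 4 + |b| + 2) := by rw [← Real.exp_add]; ring_nf
  · intro a b hab
    unfold Dabs
    apply Summable.tsum_le_tsum _ (summable_term a) (summable_term b)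
    intro n
    apply Real.exp_le_exp.2
    have := mul_le_mul_of_nonneg_right hab (L_nonneg n)
    linarith
  · intro s
    unfold D Dabs
    have h1 : Summable (fun n : ℕ => ‖cexp (-(s * L n) - (L n : ℂ) ^ 2)‖) := by
      simp_rw [norm_cterm]; exact summable_term _
    calc _ ≤ ∑' n : ℕ, ‖cexp (-(s * L n) - (L n : ℂ) ^ 2)‖ := norm_tsum_le_tsum_norm h1
      _ = _ := by simp_rw [norm_cterm]
  · intro s hs
    have h1 : Summable (fun n : ℕ => cexp (-(s * L n) - (L n : ℂ) ^ 2)) := by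
      apply Summable.of_norm
      simp_rw [norm_cterm]; exact summable_term _
    have h0 : D s = 1 + ∑' n : ℕ, cexp (-(s * L (n + 1)) - (L (n + 1) : ℂ) ^ 2) := by
      unfold D
      rw [h1.tsum_eq_zero_add]
      congr 1
      simp [L]
    have hs4 : Summable (fun n : ℕ => 4 * (1 / (((n + 1 : ℕ) : ℝ) + 1) ^ 2)) :=
      ((summable_nat_add_iff (f := fun n : ℕ => 1 / ((n : ℝ) + 1) ^ 2) 1).2 summable_sq).mul_left 4
    have hb : ∀ n : ℕ, ‖cexp (-(s * L (n + 1)) - (L (n + 1) : ℂ) ^ 2)‖ ≤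
        Real.exp (-(s.re * Real.log 2)) * (4 * (1 / (((n + 1 : ℕ) : ℝ) + 1) ^ 2)) := by
      intro n
      rw [norm_cterm, ← exp_neg_two_L]
      have h4 : (4 : ℝ) = Real.exp (2 * Real.log 2) := by
        rw [show 2 * Real.log 2 = Real.log (2 ^ 2) by rw [Real.log_pow]; norm_num,
          Real.exp_log (by norm_num)]
        norm_num
      rw [h4, ← Real.exp_add, ← Real.exp_add]
      apply Real.exp_le_exp.2
      have h5 : Real.log 2 ≤ L (n + 1) := by
        unfold L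
        apply Real.log_le_log (by norm_num)
        push_cast
        have : (0 : ℝ) ≤ n := Nat.cast_nonneg n
        linarith
      nlinarith [mul_nonneg (sub_nonneg.2 hs) (sub_nonneg.2 h5), sq_nonneg (L (n + 1))]
    rw [h0, add_sub_cancel_left]
    have hsn : Summable (fun n : ℕ => ‖cexp (-(s * L (n + 1)) - (L (n + 1) : ℂ) ^ 2)‖) :=
      Summable.of_nonneg_of_le (fun n => norm_nonneg _) hb (hs4.mul_left _)
    calc _ ≤ ∑' n : ℕ, ‖cexp (-(s * L (n + 1)) - (L (n + 1) : ℂ) ^ 2)‖ :=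
          norm_tsum_le_tsum_norm hsn
      _ ≤ ∑' n : ℕ, Real.exp (-(s.re * Real.log 2)) * (4 * (1 / (((n + 1 : ℕ) : ℝ) + 1) ^ 2)) :=
          Summable.tsum_le_tsum hb hsn (hs4.mul_left _)
      _ = Real.exp (-(s.re * Real.log 2)) * (4 * ∑' n : ℕ, 1 / (((n + 1 : ℕ) : ℝ) + 1) ^ 2) := by
          rw [tsum_mul_left, tsum_mul_left]
      _ ≤ Real.exp (-(s.re * Real.log 2)) * 3 := by
          have h6 := tsum_sq_le
          rw [summable_sq.tsum_eq_zero_add] at h6
          have h7 : (∑' n : ℕ, 1 / (((n + 1 : ℕ) : ℝ) + 1) ^ 2) ≤ 0.654 := by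
            norm_num at h6 ⊢
            linarith
          gcongr
          linarith
      _ = _ := mul_comm _ _

end W536.XI
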