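import Pool.Agent.W536.XI.Stm

open Complex MeasureTheory Filter Topology

namespace W536.XI

theorem fin (h1 : S_LOWG) (h2 : S_UPG) :
    ∃ th : ENNReal, th < 1 ∧ ∀ᶠ T : ℝ in atTop, NR (-1) T / NA (-1) T ≤ th := by
  obtain ⟨c, T1, hc, h1⟩ := h1
  obtain ⟨C0, T2, h2⟩ := h2
  set C : ℝ := max C0 1 with hC
  have hC1 : 1 ≤ C := le_max_right _ _
  refine ⟨ENNReal.ofReal (C / (C + c)), ?_, ?_⟩
  · rw [← ENNReal.ofReal_one]
    apply (ENNReal.ofReal_lt_ofReal_iff (by norm_num)).2
    rw [div_lt_one (by positivity)]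
    linarith
  · filter_upwards [eventually_ge_atTop (max (max T1 T2) 1)] with T hT
    have hT1 : T1 ≤ T := le_trans (le_trans (le_max_left _ _) (le_max_left _ _)) hT
    have hT2 : T2 ≤ T := le_trans (le_trans (le_max_right _ _) (le_max_left _ _)) hT
    have hT3 : 1 ≤ T := le_trans (le_max_right _ _) hT
    have hX : 0 ≤ T * Real.log T := mul_nonneg (by linarith) (Real.log_nonneg hT3)
    set X := T * Real.log T with hXdef
    set w : ℂ → ENNReal := fun z => ((analyticOrderAt (XiL (-1)) z : ℕ∞) : ENNReal) with hw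
    set R : Set ℂ := {z : ℂ | XiL (-1) z = 0 ∧ z.im = 0 ∧ ‖z‖ ≤ T} with hR
    set N : Set ℂ := {z : ℂ | XiL (-1) z = 0 ∧ z.im < 0 ∧ |z.re| ≤ T} with hN
    set A : Set ℂ := {z : ℂ | XiL (-1) z = 0 ∧ |z.re| ≤ T} with hA
    have hNR : NR (-1) T = ∑' z : R, w z := rfl
    have hNA : NA (-1) T = ∑' z : A, w z := rfl
    have hup : (∑' z : R, w z) ≤ ENNReal.ofReal (C * X) := by
      rw [← hNR]
      refine (h2 T hT2).trans (ENNReal.ofReal_le_ofReal ?_)
      gcongr
      exact le_max_left _ _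
    have hlow : ENNReal.ofReal (c * X) ≤ ∑' z : N, w z := h1 T hT1
    have hdisj : Disjoint R N := by
      rw [Set.disjoint_left]
      intro z hz1 hz2
      have := hz1.2.1
      have := hz2.2.1
      linarith
    have hsum : (∑' z : R, w z) + (∑' z : N, w z) ≤ ∑' z : A, w z := by
      rw [← ENNReal.summable.tsum_union_disjoint hdisj ENNReal.summable]
      apply ENNReal.tsum_mono_subtype w
      rintro z (hz | hz)
      · refine ⟨hz.1, ?_⟩
        exact (abs_re_le_norm z).trans hz.2.2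
      · exact ⟨hz.1, hz.2.2⟩
    rw [hNR, hNA]
    set r := ∑' z : R, w z
    set n := ∑' z : N, w z
    set a := ∑' z : A, w z
    have h5 : ENNReal.ofReal c * r ≤ ENNReal.ofReal C * n := by
      calc ENNReal.ofReal c * r ≤ ENNReal.ofReal c * ENNReal.ofReal (C * X) := by gcongr
        _ = ENNReal.ofReal C * ENNReal.ofReal (c * X) := by
            rw [← ENNReal.ofReal_mul hc.le, ← ENNReal.ofReal_mul (by linarith)]
            congr 1; ring
        _ ≤ _ := by gcongr
    have h6 : ENNReal.ofReal (C + c) * r ≤ ENNReal.ofReal C * a := by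
      calc ENNReal.ofReal (C + c) * r = ENNReal.ofReal C * r + ENNReal.ofReal c * r := by
            rw [ENNReal.ofReal_add (by linarith) hc.le, add_mul]
        _ ≤ ENNReal.ofReal C * r + ENNReal.ofReal C * n := by gcongr
        _ = ENNReal.ofReal C * (r + n) := by rw [mul_add]
        _ ≤ _ := by gcongr
    apply ENNReal.div_le_of_le_mul
    have h7 : ENNReal.ofReal (C + c) ≠ 0 := by
      rw [Ne, ENNReal.ofReal_eq_zero, not_le]; positivity
    have h8 : ENNReal.ofReal (C / (C + c)) = ENNReal.ofReal C / ENNReal.ofReal (C + c) := by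
      rw [ENNReal.ofReal_div_of_pos (by positivity)]
    rw [h8]
    calc r = (ENNReal.ofReal (C + c))⁻¹ * (ENNReal.ofReal (C + c) * r) := by
          rw [← mul_assoc, ENNReal.inv_mul_cancel h7 ENNReal.ofReal_ne_top, one_mul]
      _ ≤ (ENNReal.ofReal (C + c))⁻¹ * (ENNReal.ofReal C * a) := by gcongr
      _ = ENNReal.ofReal C / ENNReal.ofReal (C + c) * a := by
          rw [ENNReal.div_eq_inv_mul, mul_assoc]

theorem not_Q1 (h : ∃ th : ENNReal, th < 1 ∧ ∀ᶠ T : ℝ in atTop, NR (-1) T / NA (-1) T ≤ th) :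
    ¬ ∀ lam : ℝ, lam < 0 → Tendsto (fun T : ℝ => NR lam T / NA lam T) atTop (𝓝 1) := by
  intro hcon
  obtain ⟨th, hth, hev⟩ := h
  have h1 := hcon (-1) (by norm_num)
  exact absurd (le_of_tendsto h1 hev) (not_le.2 hth)

end W536.XI
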