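import Pool.Agent.W536.XI.Stm

open Complex MeasureTheory Filter Topology

namespace W536.XI

/-- averaging over the windows -/
theorem avg (w : ℂ → ENNReal) (A : Set ℝ) (r : ℝ) (hr : 0 < r) (K : ENNReal)
    (B : Set ℂ) (h1 : ∀ y ∈ A, K ≤ ∑' z : {z : ℂ | z ∈ B ∧ |z.re - y| ≤ r}, w z) (hA : MeasurableSet A) :
    K * volume A ≤ ENNReal.ofReal (2 * r) * ∑' z : B, w z := by
  classical
  by_cases hS : (∑' z : B, w z) = ⊤
  · rw [hS, ENNReal.mul_top]
    · exact le_top
    · simpa using hr
  set W : ℂ → ENNReal := B.indicator w with hW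
  have hS2 : (∑' z : B, w z) = ∑' z, W z := tsum_subtype B w
  rw [hS2] at hS
  have hc : (Function.support W).Countable := Summable.countable_support_ennreal hS
  set Sp := Function.support W with hSp
  have : Countable Sp := hc.to_subtype
  have h2 : ∀ y ∈ A, K ≤ ∑' z : Sp, (if |(z : ℂ).re - y| ≤ r then W z else 0) := by
    intro y hy
    refine (h1 y hy).trans (le_of_eq ?_)
    rw [tsum_subtype {z : ℂ | z ∈ B ∧ |z.re - y| ≤ r} w]
    have h3 : {z : ℂ | z ∈ B ∧ |z.re - y| ≤ r}.indicator w =
        fun z : ℂ => if |z.re - y| ≤ r then W z else 0 := by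
      funext z
      by_cases hz : z ∈ B <;> by_cases hz2 : |z.re - y| ≤ r <;> simp [hW, Set.indicator, hz, hz2]
    rw [h3]
    have h4 : Function.support (fun z : ℂ => if |z.re - y| ≤ r then W z else 0) ⊆ Sp := by
      intro z hz
      rw [hSp, Function.mem_support]
      intro h0
      apply hz
      simp [h0]
    exact (tsum_subtype_eq_of_support_subset h4).symm
  have h5 : ∀ (c : ℝ) (a : ENNReal), (∫⁻ y in A, (if |c - y| ≤ r then a else 0)) ≤
      ENNReal.ofReal (2 * r) * a := by
    intro c a
    calc (∫⁻ y in A, (if |c - y| ≤ r then a else 0))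
        ≤ ∫⁻ y, (if |c - y| ≤ r then a else 0) := setLIntegral_le_lintegral _ _
      _ = ∫⁻ y, (Set.Icc (c - r) (c + r)).indicator (fun _ => a) y := by
          congr 1
          funext y
          by_cases h : |c - y| ≤ r
          · have h' : y ∈ Set.Icc (c - r) (c + r) := by
              rw [abs_le] at h; constructor <;> linarith
            rw [if_pos h, Set.indicator_of_mem h']
          · have h' : y ∉ Set.Icc (c - r) (c + r) := by
              intro h'; apply h; rw [abs_le]; constructor <;> linarith [h'.1, h'.2]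
            rw [if_neg h, Set.indicator_of_notMem h']
      _ = a * volume (Set.Icc (c - r) (c + r)) := by
          rw [lintegral_indicator measurableSet_Icc]; simp
      _ = ENNReal.ofReal (2 * r) * a := by
          rw [Real.volume_Icc, mul_comm]; congr 2; ring
  calc K * volume A = ∫⁻ _ in A, K := by simp
    _ ≤ ∫⁻ y in A, ∑' z : Sp, (if |(z : ℂ).re - y| ≤ r then W z else 0) :=
        setLIntegral_mono' hA h2
    _ = ∑' z : Sp, ∫⁻ y in A, (if |(z : ℂ).re - y| ≤ r then W z else 0) := by
        apply lintegral_tsum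
        intro z
        apply Measurable.aemeasurable
        apply Measurable.ite _ measurable_const measurable_const
        apply measurableSet_le _ measurable_const
        fun_prop
    _ ≤ ∑' z : Sp, ENNReal.ofReal (2 * r) * W z := ENNReal.tsum_le_tsum fun z => h5 _ _
    _ = ENNReal.ofReal (2 * r) * ∑' z : Sp, W z := ENNReal.tsum_mul_left
    _ = ENNReal.ofReal (2 * r) * ∑' z : B, w z := by
        rw [hS2, tsum_subtype_eq_of_support_subset (le_refl _)]

theorem lowg (h1 : S_LOWL) (h2 : S_MOM) : S_LOWG := by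
  obtain ⟨dl, T1, hdl, h1⟩ := h1
  obtain ⟨mu, T2, hmu, h2⟩ := h2
  refine ⟨dl * mu / 24, 3 * max (max T1 T2) 100, by positivity, ?_⟩
  intro T' hT'
  set T := T' / 3 with hTdef
  have hT3 : T' = 3 * T := by rw [hTdef]; ring
  have hTm : max (max T1 T2) 100 ≤ T := by rw [hTdef]; linarith
  have hT100 : 100 ≤ T := le_trans (le_max_right _ _) hTm
  have hTT1 : T1 ≤ T := le_trans (le_trans (le_max_left _ _) (le_max_left _ _)) hTm
  have hTT2 : T2 ≤ T := le_trans (le_trans (le_max_right _ _) (le_max_left _ _)) hTm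
  obtain ⟨A, hA, hAG, hAv⟩ := h2 T hTT2
  have hlog : 2 * Real.log T ≤ T := by
    have := Real.log_le_sub_one_of_pos (show 0 < T / 4 by positivity)
    rw [Real.log_div (by positivity) (by norm_num)] at this
    have h4 : Real.log 4 < 1.4 := by
      rw [show (4 : ℝ) = 2 ^ 2 by norm_num, Real.log_pow]
      have := Real.log_two_lt_d9
      push_cast; linarith
    linarith
  have hlog1 : 1 ≤ Real.log T := by
    rw [Real.le_log_iff_exp_le (by positivity)]
    have := Real.exp_one_lt_d9
    linarith
  set w : ℂ → ENNReal := fun z => ((analyticOrderAt (XiL (-1)) z : ℕ∞) : ENNReal) with hw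
  set B : Set ℂ := {z : ℂ | XiL (-1) z = 0 ∧ z.im < 0 ∧ |z.re| ≤ T'} with hB
  have key := avg w A (2 * Real.log T) (by positivity) (ENNReal.ofReal (dl * Real.log T ^ 2)) B
    (by
      intro y hy
      refine (h1 T hTT1 y (hAG hy)).trans ?_
      unfold cntLow
      apply ENNReal.tsum_mono_subtype w
      intro z hz
      obtain ⟨hz1, hz2, hz3⟩ := hz
      refine ⟨⟨hz1, hz2, ?_⟩, hz3⟩
      have hy1 := (hAG hy).1
      have h3 : |z.re| ≤ |z.re - y| + |y| := by
        have := abs_add_le (z.re - y) y
        simpa using this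
      have h4 : |y| = y := abs_of_nonneg (by linarith [hy1.1])
      rw [h4] at h3
      linarith [hy1.2]) hA
  have hBsum : (∑' z : {z : ℂ // XiL (-1) z = 0 ∧ z.im < 0 ∧ |z.re| ≤ T'},
      ((analyticOrderAt (XiL (-1)) z : ℕ∞) : ENNReal)) = ∑' z : B, w z := rfl
  rw [hBsum]
  set S := ∑' z : B, w z with hS
  have h5 : ENNReal.ofReal (dl * Real.log T ^ 2) * ENNReal.ofReal (mu * T) ≤
      ENNReal.ofReal (2 * (2 * Real.log T)) * S :=
    le_trans (mul_le_mul_right hAv _) key
  rw [← ENNReal.ofReal_mul (by positivity)] at h5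
  by_cases hStop : S = ⊤
  · rw [hStop]; exact le_top
  lift S to NNReal using hStop with s hs
  have h6 : ENNReal.ofReal (2 * (2 * Real.log T)) * (s : ENNReal) =
      ENNReal.ofReal (2 * (2 * Real.log T) * s) := by
    rw [ENNReal.ofReal_mul (p := 2 * (2 * Real.log T)) (by positivity), ENNReal.ofReal_coe_nnreal]
  rw [h6, ENNReal.ofReal_le_ofReal_iff (by positivity)] at h5
  rw [← ENNReal.ofReal_coe_nnreal]
  apply ENNReal.ofReal_le_ofReal
  have h7 : Real.log T' ≤ 2 * Real.log T := by
    rw [hT3, Real.log_mul (by norm_num) (by positivity)]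
    have : Real.log 3 ≤ Real.log T := Real.log_le_log (by norm_num) (by linarith)
    linarith
  have h8 : dl * mu * T * Real.log T / 4 ≤ s := by
    have h9 : (dl * mu * T * Real.log T / 4) * (4 * Real.log T) ≤ s * (4 * Real.log T) := by
      calc _ = dl * Real.log T ^ 2 * (mu * T) := by ring
        _ ≤ _ := h5
        _ = _ := by ring
    exact le_of_mul_le_mul_right h9 (by positivity)
  calc dl * mu / 24 * (T' * Real.log T') ≤ dl * mu / 24 * (T' * (2 * Real.log T)) := by
        gcongr
        rw [hT3]; positivity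
    _ = dl * mu * T * Real.log T / 4 := by rw [hT3]; ring
    _ ≤ s := h8

end W536.XI
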