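import Pool.Agent.W536.XI.Stm

open Complex

namespace W536.XI

theorem ord : S_ORD := by
  intro X E hX hE hE0 a b hb z
  have h1 : AnalyticAt ℂ (fun w : ℂ => a + b * w) z := by fun_prop
  have h2 : AnalyticAt ℂ (X ∘ fun w : ℂ => a + b * w) z := (hX.analyticAt _).comp h1
  have h3 : (fun w => X (a + b * w) * E w) = (X ∘ fun w : ℂ => a + b * w) * E := by
    funext w; simp
  rw [h3, analyticOrderAt_mul h2 (hE.analyticAt z)]
  have h4 : analyticOrderAt E z = 0 := by
    rw [(hE.analyticAt z).analyticOrderAt_eq_zero]; exact hE0 z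
  rw [h4, add_zero, analyticOrderAt_comp_of_deriv_ne_zero h1]
  simp [hb]

end W536.XI
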