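import Pool.Agent.W536.XI.Zf
import Pool.Agent.W536.XI.Ord

open Complex MeasureTheory Filter Topology ComplexConjugate

namespace W536.XI

theorem XiL_neg (lam : ℝ) (z : ℂ) : XiL lam (-z) = conj (XiL lam (conj z)) := by
  unfold XiL
  rw [← integral_conj]
  congr 1
  funext t
  simp only [map_mul, Complex.conj_ofReal, ← Complex.exp_conj, map_pow, Complex.conj_I, conj_conj]
  congr 2
  ring

theorem order_conj {f : ℂ → ℂ} (hf : Differentiable ℂ f) (z : ℂ) :
    analyticOrderAt (fun w => conj (f (conj w))) z = analyticOrderAt f (conj z) := by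
  have hd : Differentiable ℂ (fun w => conj (f (conj w))) := by
    intro w
    have := (hf (conj w))
    have h2 : DifferentiableAt ℂ f (conj w) := this
    have h3 := h2.conj_conj
    simpa [Function.comp_def] using h3
  by_cases htop : analyticOrderAt f (conj z) = ⊤
  · rw [htop]
    have h0 : f = 0 := (AnalyticOnNhd.analyticOrderAt_eq_top_iff_eq_zero _
      (fun w => hf.analyticAt w)).1 htop
    rw [AnalyticOnNhd.analyticOrderAt_eq_top_iff_eq_zero _ (fun w => hd.analyticAt w)]
    funext w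
    simp [h0]
  · obtain ⟨g, hg, hg0, hfac⟩ := split_one hf (conj z) htop
    set n := analyticOrderNatAt f (conj z) with hn
    have hd2 : Differentiable ℂ (fun w => conj (g (conj w))) := by
      intro w
      have h2 : DifferentiableAt ℂ g (conj w) := hg (conj w)
      have h3 := h2.conj_conj
      simpa [Function.comp_def] using h3
    have h1 : analyticOrderAt (fun w => conj (f (conj w))) z = (n : ℕ∞) := by
      rw [(hd.analyticAt z).analyticOrderAt_eq_natCast]
      refine ⟨fun w => conj (g (conj w)), hd2.analyticAt z, ?_, ?_⟩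
      · simpa using hg0
      · refine Filter.Eventually.of_forall fun w => ?_
        rw [hfac (conj w)]
        simp
    rw [h1, hn, Nat.cast_analyticOrderNatAt htop]

theorem order_neg (hd : Differentiable ℂ (XiL (-1))) (z : ℂ) (hz : z.im = 0) :
    analyticOrderAt (XiL (-1)) (-z) = analyticOrderAt (XiL (-1)) z := by
  have h1 := ord (XiL (-1)) (fun _ => 1) hd (by fun_prop) (by simp) 0 (-1) (by simp) z
  have h2 := order_conj hd z
  have h3 : conj z = z := Complex.conj_eq_iff_im.2 hz
  rw [h3] at h2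
  have h4 : (fun w => XiL (-1) (0 + -1 * w) * 1) = fun w => conj (XiL (-1) (conj w)) := by
    funext w
    rw [← XiL_neg]
    simp
  rw [h4, h2] at h1
  rw [h1]
  congr 1
  ring

/-- the multiplicity -/
noncomputable def mul (z : ℂ) : ENNReal := ((analyticOrderAt (XiL (-1)) z : ℕ∞) : ENNReal)

/-- a window of real zeros -/
def Wd (y : ℝ) : Set ℂ := {z : ℂ | XiL (-1) z = 0 ∧ z.im = 0 ∧ |z.re - y| ≤ 2 * Real.log y}

theorem cntReal_eq (y : ℝ) : cntReal y (2 * Real.log y) = ∑' z : Wd y, mul z := rfl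

theorem not_zero (h1 : S_UPL) : ∃ z, XiL (-1) z ≠ 0 := by
  obtain ⟨C, y1, h⟩ := h1
  by_contra hcon
  push Not at hcon
  set y := max y1 1 with hy
  have h2 := h y (le_max_left _ _)
  rw [cntReal_eq] at h2
  have hy1 : 1 ≤ y := le_max_right _ _
  have hmem : (y : ℂ) ∈ Wd y := by
    refine ⟨hcon _, by simp, ?_⟩
    have := Real.log_nonneg hy1
    simp [this]
  have h3 : mul (y : ℂ) ≤ ∑' z : Wd y, mul z :=
    ENNReal.le_tsum (f := fun z : Wd y => mul z) ⟨(y : ℂ), hmem⟩
  have h4 : mul (y : ℂ) = ⊤ := by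
    unfold mul
    have : analyticOrderAt (XiL (-1)) (y : ℂ) = ⊤ := by
      rw [analyticOrderAt_eq_top]
      exact Filter.Eventually.of_forall fun z => hcon z
    rw [this]; rfl
  rw [h4] at h3
  exact absurd (le_trans h3 h2) (by simp)

/-- the real zeros with Y ≤ Re z ≤ T are covered by windows -/
theorem cover {T Y : ℝ} (hY : 3 ≤ Y) (hT : 100 ≤ T) (hYT : Y ^ 2 ≤ T) :
    {z : ℂ | XiL (-1) z = 0 ∧ z.im = 0 ∧ Y ≤ z.re ∧ z.re ≤ T} ⊆
      (⋃ j ∈ Finset.range (⌊Real.sqrt T⌋₊ + 1), Wd (Y + j)) ∪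
      (⋃ j ∈ Finset.range (⌊T / Real.log T⌋₊ + 1), Wd (Real.sqrt T + j * Real.log T)) := by
  intro z hz
  obtain ⟨hz1, hz2, hz3, hz4⟩ := hz
  have hlogT : 1 ≤ Real.log T := by
    rw [Real.le_log_iff_exp_le (by positivity)]
    have := Real.exp_one_lt_d9
    linarith
  by_cases h : z.re ≤ Real.sqrt T
  · left
    simp only [Set.mem_iUnion, Finset.mem_range, exists_prop]
    refine ⟨⌊z.re - Y⌋₊, ?_, hz1, hz2, ?_⟩
    · have : ⌊z.re - Y⌋₊ ≤ ⌊Real.sqrt T⌋₊ := Nat.floor_le_floor (by linarith)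
      omega
    · have h1 := Nat.floor_le (show 0 ≤ z.re - Y by linarith)
      have h2 := Nat.lt_floor_add_one (z.re - Y)
      have h3 : |z.re - (Y + (⌊z.re - Y⌋₊ : ℝ))| ≤ 1 := by
        rw [abs_le]; constructor <;> linarith
      have h4 : 1 ≤ Real.log (Y + (⌊z.re - Y⌋₊ : ℝ)) := by
        rw [Real.le_log_iff_exp_le (by positivity)]
        have := Real.exp_one_lt_d9
        have h5 : (0 : ℝ) ≤ (⌊z.re - Y⌋₊ : ℝ) := Nat.cast_nonneg _
        linarith
      linarith
  · right
    push Not at h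
    simp only [Set.mem_iUnion, Finset.mem_range, exists_prop]
    have hs0 : 0 ≤ Real.sqrt T := Real.sqrt_nonneg T
    have hq : 0 ≤ (z.re - Real.sqrt T) / Real.log T := div_nonneg (by linarith) (by linarith)
    refine ⟨⌊(z.re - Real.sqrt T) / Real.log T⌋₊, ?_, hz1, hz2, ?_⟩
    · have : ⌊(z.re - Real.sqrt T) / Real.log T⌋₊ ≤ ⌊T / Real.log T⌋₊ := by
        apply Nat.floor_le_floor
        apply div_le_div_of_nonneg_right _ (by linarith)
        linarith
      omega
    · have h1 := Nat.floor_le hq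
      have h2 := Nat.lt_floor_add_one ((z.re - Real.sqrt T) / Real.log T)
      set j : ℝ := (⌊(z.re - Real.sqrt T) / Real.log T⌋₊ : ℝ) with hj
      rw [le_div_iff₀ (by linarith)] at h1
      rw [div_lt_iff₀ (by linarith)] at h2
      have h3 : |z.re - (Real.sqrt T + j * Real.log T)| ≤ Real.log T := by
        rw [abs_le]; constructor <;> nlinarith
      have h4 : Real.log T ≤ 2 * Real.log (Real.sqrt T + j * Real.log T) := by
        have h5 : Real.log (Real.sqrt T) = Real.log T / 2 := Real.log_sqrt (by linarith)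
        have h6 : Real.log (Real.sqrt T) ≤ Real.log (Real.sqrt T + j * Real.log T) := by
          apply Real.log_le_log (Real.sqrt_pos.2 (by linarith))
          have : (0 : ℝ) ≤ j := Nat.cast_nonneg _
          nlinarith
        linarith
      linarith

theorem log_le_sqrt {T : ℝ} (hT : 0 < T) : Real.log T ≤ Real.sqrt T := by
  have hs : 0 < Real.sqrt T := Real.sqrt_pos.2 hT
  have h1 : Real.log (Real.sqrt T / 2) ≤ Real.sqrt T / 2 - 1 :=
    Real.log_le_sub_one_of_pos (by positivity)
  rw [Real.log_div (by positivity) (by norm_num), Real.log_sqrt hT.le] at h1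
  have h2 := Real.log_two_lt_d9
  linarith

/-- bound for the real zeros in [Y, T] -/
theorem pos_bound (h1 : S_UPL) : ∃ C Y : ℝ, 3 ≤ Y ∧ 0 ≤ C ∧ ∀ T : ℝ, max 100 (Y ^ 2) ≤ T →
    (∑' z : {z : ℂ | XiL (-1) z = 0 ∧ z.im = 0 ∧ Y ≤ z.re ∧ z.re ≤ T}, mul z) ≤
      ENNReal.ofReal (C * (T * Real.log T)) := by
  obtain ⟨C, y1, h⟩ := h1
  set Y := max y1 3 with hYdef
  have hY3 : 3 ≤ Y := le_max_right _ _
  refine ⟨24 * |C|, Y, hY3, by positivity, ?_⟩
  intro T hTm
  have hT : 100 ≤ T := le_trans (le_max_left _ _) hTm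
  have hYT : Y ^ 2 ≤ T := le_trans (le_max_right _ _) hTm
  have hlogT : 1 ≤ Real.log T := by
    rw [Real.le_log_iff_exp_le (by positivity)]
    have := Real.exp_one_lt_d9
    linarith
  have hsT : 10 ≤ Real.sqrt T := by
    apply Real.le_sqrt_of_sq_le; norm_num; exact hT
  have hss : Real.sqrt T * Real.sqrt T = T := Real.mul_self_sqrt (by linarith)
  have hsT2 : Real.sqrt T ≤ T / 10 := by nlinarith
  have hYs : Y ≤ Real.sqrt T := Real.le_sqrt_of_sq_le hYT
  have hlT := log_le_sqrt (show 0 < T by linarith)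
  -- bound for a window
  have hwin : ∀ y : ℝ, Y ≤ y → y ≤ 2 * T → (∑' z : Wd y, mul z) ≤
      ENNReal.ofReal (4 * |C| * Real.log T ^ 2) := by
    intro y hy1 hy2
    rw [← cntReal_eq]
    refine (h y (le_trans (le_max_left _ _) hy1)).trans ?_
    apply ENNReal.ofReal_le_ofReal
    have h2 : Real.log y ≤ 2 * Real.log T := by
      have h3 : Real.log y ≤ Real.log (2 * T) := Real.log_le_log (by linarith) hy2
      rw [Real.log_mul (by norm_num) (by linarith)] at h3
      have h4 : Real.log 2 ≤ Real.log T := Real.log_le_log (by norm_num) (by linarith)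
      linarith
    have h3 : 0 ≤ Real.log y := Real.log_nonneg (by linarith)
    have h5 : Real.log y ^ 2 ≤ (2 * Real.log T) ^ 2 := pow_le_pow_left₀ h3 h2 2
    calc C * Real.log y ^ 2 ≤ |C| * Real.log y ^ 2 := by
          gcongr; exact le_abs_self C
      _ ≤ |C| * (2 * Real.log T) ^ 2 := by gcongr
      _ = 4 * |C| * Real.log T ^ 2 := by ring
  set K := ENNReal.ofReal (4 * |C| * Real.log T ^ 2) with hK
  have hA : (∑' z : (⋃ j ∈ Finset.range (⌊Real.sqrt T⌋₊ + 1), Wd (Y + j) : Set ℂ), mul z) ≤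
      (⌊Real.sqrt T⌋₊ + 1 : ℕ) * K := by
    refine (ENNReal.tsum_biUnion_le mul _ _).trans ?_
    calc _ ≤ ∑ j ∈ Finset.range (⌊Real.sqrt T⌋₊ + 1), K := by
          apply Finset.sum_le_sum
          intro j hj
          rw [Finset.mem_range] at hj
          have hj2 : (j : ℝ) ≤ Real.sqrt T := by
            have : (j : ℝ) ≤ (⌊Real.sqrt T⌋₊ : ℝ) := by exact_mod_cast Nat.lt_succ_iff.1 hj
            exact this.trans (Nat.floor_le (by positivity))
          apply hwin
          · have : (0 : ℝ) ≤ j := Nat.cast_nonneg _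
            linarith
          · linarith
      _ = _ := by simp
  have hB : (∑' z : (⋃ j ∈ Finset.range (⌊T / Real.log T⌋₊ + 1),
      Wd (Real.sqrt T + j * Real.log T) : Set ℂ), mul z) ≤ (⌊T / Real.log T⌋₊ + 1 : ℕ) * K := by
    refine (ENNReal.tsum_biUnion_le mul _ _).trans ?_
    calc _ ≤ ∑ j ∈ Finset.range (⌊T / Real.log T⌋₊ + 1), K := by
          apply Finset.sum_le_sum
          intro j hj
          rw [Finset.mem_range] at hj
          have hj2 : (j : ℝ) ≤ T / Real.log T := by
            have : (j : ℝ) ≤ (⌊T / Real.log T⌋₊ : ℝ) := by exact_mod_cast Nat.lt_succ_iff.1 hj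
            exact this.trans (Nat.floor_le (by positivity))
          rw [le_div_iff₀ (by linarith)] at hj2
          apply hwin
          · have : (0 : ℝ) ≤ (j : ℝ) * Real.log T := by positivity
            linarith
          · linarith
      _ = _ := by simp
  calc (∑' z : {z : ℂ | XiL (-1) z = 0 ∧ z.im = 0 ∧ Y ≤ z.re ∧ z.re ≤ T}, mul z)
      ≤ ∑' z : ((⋃ j ∈ Finset.range (⌊Real.sqrt T⌋₊ + 1), Wd (Y + j)) ∪
      (⋃ j ∈ Finset.range (⌊T / Real.log T⌋₊ + 1), Wd (Real.sqrt T + j * Real.log T)) : Set ℂ),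
        mul z := ENNReal.tsum_mono_subtype mul (cover hY3 hT hYT)
    _ ≤ (⌊Real.sqrt T⌋₊ + 1 : ℕ) * K + (⌊T / Real.log T⌋₊ + 1 : ℕ) * K :=
        (ENNReal.tsum_union_le mul _ _).trans (add_le_add hA hB)
    _ = ENNReal.ofReal (((⌊Real.sqrt T⌋₊ + 1 : ℕ) + (⌊T / Real.log T⌋₊ + 1 : ℕ) : ℝ) *
          (4 * |C| * Real.log T ^ 2)) := by
        rw [← add_mul, ENNReal.ofReal_mul (by positivity), hK,
          ENNReal.ofReal_add (by positivity) (by positivity), ENNReal.ofReal_natCast,
          ENNReal.ofReal_natCast]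
    _ ≤ ENNReal.ofReal (24 * |C| * (T * Real.log T)) := by
        apply ENNReal.ofReal_le_ofReal
        push_cast
        have h5 : (⌊Real.sqrt T⌋₊ : ℝ) ≤ Real.sqrt T := Nat.floor_le (by positivity)
        have h6 : (⌊T / Real.log T⌋₊ : ℝ) ≤ T / Real.log T := Nat.floor_le (by positivity)
        have h7 : Real.sqrt T * Real.log T ^ 2 ≤ T * Real.log T := by
          calc Real.sqrt T * Real.log T ^ 2 = (Real.sqrt T * Real.log T) * Real.log T := by ring
            _ ≤ (Real.sqrt T * Real.sqrt T) * Real.log T := by gcongr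
            _ = _ := by rw [hss]
        have h8 : T / Real.log T * Real.log T ^ 2 = T * Real.log T := by
          field_simp
        have h9 : Real.log T ^ 2 ≤ T * Real.log T := by
          rw [sq]
          gcongr
          linarith
        calc ((⌊Real.sqrt T⌋₊ : ℝ) + 1 + ((⌊T / Real.log T⌋₊ : ℝ) + 1)) * (4 * |C| * Real.log T ^ 2)
            ≤ (Real.sqrt T + 1 + (T / Real.log T + 1)) * (4 * |C| * Real.log T ^ 2) := by gcongr
          _ = 4 * |C| * (Real.sqrt T * Real.log T ^ 2 + T / Real.log T * Real.log T ^ 2 +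
                2 * Real.log T ^ 2) := by ring
          _ ≤ 4 * |C| * (T * Real.log T + T * Real.log T + 2 * (T * Real.log T)) := by
              rw [h8]; gcongr
          _ ≤ 24 * |C| * (T * Real.log T) := by
              have : 0 ≤ |C| * (T * Real.log T) := by positivity
              nlinarith

theorem upg (h1 : S_UPL) (h2 : S_FREP) : S_UPG := by
  have hd : Differentiable ℂ (XiL (-1)) := h2.2
  have hne := not_zero h1
  obtain ⟨C, Y, hY3, hC, hpos⟩ := pos_bound h1
  have hfin := zeros_finite hd hne Y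
  set E : Set ℂ := {a : ℂ | ‖a‖ ≤ Y ∧ XiL (-1) a = 0} with hE
  have hCE : (∑' z : E, mul z) ≠ ⊤ := by
    haveI : Finite E := hfin
    haveI : Fintype E := Fintype.ofFinite E
    rw [tsum_fintype]
    refine (ENNReal.sum_lt_top.2 fun z _ => ?_).ne
    unfold mul
    have := order_ne_top hd hne (z : ℂ)
    exact lt_top_iff_ne_top.2 (by simpa using this)
  set CE : ℝ := (∑' z : E, mul z).toReal with hCEdef
  have hCE0 : 0 ≤ CE := ENNReal.toReal_nonneg
  refine ⟨2 * C + 1, max (max 100 (Y ^ 2)) CE, ?_⟩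
  intro T hT
  have hT1 : max 100 (Y ^ 2) ≤ T := le_trans (le_max_left _ _) hT
  have hT2 : CE ≤ T := le_trans (le_max_right _ _) hT
  have hT100 : 100 ≤ T := le_trans (le_max_left _ _) hT1
  have hlogT : 1 ≤ Real.log T := by
    rw [Real.le_log_iff_exp_le (by positivity)]
    have := Real.exp_one_lt_d9
    linarith
  set Pos : Set ℂ := {z : ℂ | XiL (-1) z = 0 ∧ z.im = 0 ∧ Y ≤ z.re ∧ z.re ≤ T} with hPos
  set Neg : Set ℂ := {z : ℂ | -z ∈ Pos} with hNeg
  have hzero : ∀ z : ℂ, z.im = 0 → (XiL (-1) (-z) = 0 ↔ XiL (-1) z = 0) := by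
    intro z hz
    rw [XiL_neg, Complex.conj_eq_iff_im.2 hz]
    simp
  have hsub : {z : ℂ | XiL (-1) z = 0 ∧ z.im = 0 ∧ ‖z‖ ≤ T} ⊆ E ∪ (Pos ∪ Neg) := by
    intro z hz
    obtain ⟨hz1, hz2, hz3⟩ := hz
    have hzr : z = (z.re : ℂ) := by
      apply Complex.ext <;> simp [hz2]
    have hn : ‖z‖ = |z.re| := by
      conv_lhs => rw [hzr]
      rw [Complex.norm_real, Real.norm_eq_abs]
    rw [hn] at hz3
    by_cases h : |z.re| ≤ Y
    · left; exact ⟨by rw [hn]; exact h, hz1⟩
    · right
      push Not at h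
      rcases abs_cases z.re with ⟨ha, _⟩ | ⟨ha, _⟩
      · left; rw [ha] at h hz3; exact ⟨hz1, hz2, h.le, hz3⟩
      · right
        rw [ha] at h hz3
        refine ⟨(hzero z hz2).2 hz1, by simp [hz2], by simpa using h.le, by simpa using hz3⟩
  have hNegsum : (∑' z : Neg, mul z) = ∑' z : Pos, mul z := by
    let e : Neg ≃ Pos :=
      { toFun := fun z => ⟨-z, z.2⟩
        invFun := fun z => ⟨-z, by simp [hNeg]⟩
        left_inv := fun z => by simp
        right_inv := fun z => by simp }
    rw [← e.tsum_eq (fun z : Pos => mul z)]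
    congr 1
    funext z
    have hz := z.2
    have him : (z : ℂ).im = 0 := by
      have := hz.2.1
      simpa using this
    unfold mul
    congr 1
    exact (order_neg hd z him).symm
  have hP := hpos T hT1
  calc NR (-1) T = ∑' z : {z : ℂ | XiL (-1) z = 0 ∧ z.im = 0 ∧ ‖z‖ ≤ T}, mul z := rfl
    _ ≤ ∑' z : (E ∪ (Pos ∪ Neg) : Set ℂ), mul z := ENNReal.tsum_mono_subtype mul hsub
    _ ≤ (∑' z : E, mul z) + ((∑' z : Pos, mul z) + ∑' z : Neg, mul z) :=
        (ENNReal.tsum_union_le mul _ _).trans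
          (by gcongr; exact ENNReal.tsum_union_le mul _ _)
    _ ≤ ENNReal.ofReal (T * Real.log T) + (ENNReal.ofReal (C * (T * Real.log T)) +
          ENNReal.ofReal (C * (T * Real.log T))) := by
        rw [hNegsum]
        gcongr
        rw [← ENNReal.ofReal_toReal hCE]
        apply ENNReal.ofReal_le_ofReal
        rw [← hCEdef]
        nlinarith
    _ = ENNReal.ofReal ((2 * C + 1) * (T * Real.log T)) := by
        rw [← ENNReal.ofReal_add (by positivity) (by positivity),
          ← ENNReal.ofReal_add (by positivity) (by positivity)]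
        congr 1
        ring

end W536.XI
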