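import Pool.Agent.W536.XI.Stm

open Complex Filter Topology

namespace W536.XI

/-- finitely many zeros in a disc -/
theorem zeros_finite {f : ℂ → ℂ} (hf : Differentiable ℂ f) (h0 : ∃ z, f z ≠ 0) (R : ℝ) :
    {a : ℂ | ‖a‖ ≤ R ∧ f a = 0}.Finite := by
  obtain ⟨x, hx⟩ := h0
  have h1 : AnalyticOnNhd ℂ f Set.univ := fun z _ => hf.analyticAt z
  have h2 : f ⁻¹' {0}ᶜ ∈ codiscrete ℂ := h1.preimage_zero_mem_codiscrete hx
  have h3 : f ⁻¹' {0}ᶜ ∈ codiscreteWithin (Metric.closedBall (0 : ℂ) R) :=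
    Filter.codiscreteWithin_mono (Set.subset_univ _) h2
  have h4 := (isCompact_closedBall (0 : ℂ) R).finite_sdiff_of_mem_codiscreteWithin h3
  apply h4.subset
  intro a ha
  simp only [Set.mem_setOf_eq] at ha
  refine ⟨by simpa using ha.1, ?_⟩
  simp [ha.2]

theorem order_ne_top {f : ℂ → ℂ} (hf : Differentiable ℂ f) (h0 : ∃ z, f z ≠ 0) (a : ℂ) :
    analyticOrderAt f a ≠ ⊤ := by
  obtain ⟨x, hx⟩ := h0
  intro h
  rw [AnalyticOnNhd.analyticOrderAt_eq_top_iff_eq_zero a (fun z => hf.analyticAt z)] at h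
  exact hx (by rw [h]; rfl)

/-- dividing out one zero -/
theorem split_one {f : ℂ → ℂ} (hf : Differentiable ℂ f) (a : ℂ) (h : analyticOrderAt f a ≠ ⊤) :
    ∃ g : ℂ → ℂ, Differentiable ℂ g ∧ g a ≠ 0 ∧
      ∀ z, f z = (z - a) ^ (analyticOrderNatAt f a) * g z := by
  obtain ⟨g0, hg0, hga, hev⟩ := ((hf.analyticAt a).analyticOrderAt_ne_top).1 h
  set n := analyticOrderNatAt f a with hn
  classical
  let g : ℂ → ℂ := fun z => if z = a then g0 a else f z / (z - a) ^ n
  have hg1 : ∀ z, z ≠ a → g z = f z / (z - a) ^ n := fun z hz => by simp [g, hz]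
  have hga' : g a = g0 a := by simp [g]
  have hgev : g =ᶠ[𝓝 a] g0 := by
    filter_upwards [hev] with z hz
    by_cases hza : z = a
    · rw [hza]; exact hga'
    · rw [hg1 z hza, hz]
      have : (z - a) ^ n ≠ 0 := pow_ne_zero _ (sub_ne_zero.2 hza)
      rw [smul_eq_mul]
      field_simp
  refine ⟨g, ?_, by rw [hga']; exact hga, ?_⟩
  · intro z
    by_cases hza : z = a
    · rw [hza]
      exact hg0.differentiableAt.congr_of_eventuallyEq hgev
    · have h1 : g =ᶠ[𝓝 z] fun z => f z / (z - a) ^ n := by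
        filter_upwards [isOpen_ne.mem_nhds hza] with w hw
        exact hg1 w hw
      refine DifferentiableAt.congr_of_eventuallyEq ?_ h1
      exact (hf z).div (by fun_prop) (pow_ne_zero _ (sub_ne_zero.2 hza))
  · intro z
    by_cases hza : z = a
    · rw [hza]
      have := hev.self_of_nhds
      rw [this, hga']; simp
    · rw [hg1 z hza]
      have : (z - a) ^ n ≠ 0 := pow_ne_zero _ (sub_ne_zero.2 hza)
      field_simp

theorem order_rest {f g : ℂ → ℂ} (hg : Differentiable ℂ g) (a : ℂ) (n : ℕ)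
    (h : ∀ z, f z = (z - a) ^ n * g z) (b : ℂ) (hb : b ≠ a) :
    analyticOrderAt f b = analyticOrderAt g b := by
  have h1 : f = (fun z => (z - a) ^ n) * g := by funext z; simp [h z]
  have h2 : AnalyticAt ℂ (fun z : ℂ => (z - a) ^ n) b := by fun_prop
  rw [h1, analyticOrderAt_mul h2 (hg.analyticAt b)]
  have : analyticOrderAt (fun z : ℂ => (z - a) ^ n) b = 0 := by
    rw [h2.analyticOrderAt_eq_zero]
    exact pow_ne_zero _ (sub_ne_zero.2 hb)
  rw [this, zero_add]

theorem split_finset {f : ℂ → ℂ} (hf : Differentiable ℂ f) (h0 : ∀ a, analyticOrderAt f a ≠ ⊤)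
    (S : Finset ℂ) : ∃ g : ℂ → ℂ, Differentiable ℂ g ∧ (∀ a ∈ S, g a ≠ 0) ∧
      (∀ b, b ∉ S → analyticOrderAt g b = analyticOrderAt f b) ∧
      ∀ z, f z = (∏ a ∈ S, (z - a) ^ (analyticOrderNatAt f a)) * g z := by
  classical
  induction S using Finset.induction_on with
  | empty => exact ⟨f, hf, by simp, by simp, by simp⟩
  | insert a S ha ih =>
    obtain ⟨g, hg, hg1, hg2, hg3⟩ := ih
    have h1 : analyticOrderAt g a ≠ ⊤ := by rw [hg2 a ha]; exact h0 a
    obtain ⟨g', hg', hg'1, hg'2⟩ := split_one hg a h1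
    have hn : analyticOrderNatAt g a = analyticOrderNatAt f a := by
      unfold analyticOrderNatAt; rw [hg2 a ha]
    refine ⟨g', hg', ?_, ?_, ?_⟩
    · intro b hb
      rcases Finset.mem_insert.1 hb with h | h
      · rw [h]; exact hg'1
      · intro hb0
        apply hg1 b h
        rw [hg'2 b, hb0, mul_zero]
    · intro b hb
      rw [Finset.mem_insert, not_or] at hb
      rw [← hg2 b hb.2]
      exact (order_rest hg' a _ hg'2 b hb.1).symm
    · intro z
      rw [Finset.prod_insert ha, hg3 z, hg'2 z, hn]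
      ring

theorem zf : S_ZF := by
  intro f hf h0 R
  classical
  have hfin := zeros_finite hf h0 R
  obtain ⟨g, hg, hg1, hg2, hg3⟩ := split_finset hf (order_ne_top hf h0) hfin.toFinset
  refine ⟨hfin.toFinset, g, ?_, hg, ?_, ?_, hg3⟩
  · intro a; simp
  · intro z hz
    by_cases hz0 : z ∈ hfin.toFinset
    · exact hg1 z hz0
    · intro h
      apply hz0
      simp only [Set.Finite.mem_toFinset, Set.mem_setOf_eq]
      refine ⟨hz, ?_⟩
      rw [hg3 z, h, mul_zero]
  · intro a _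
    exact order_ne_top hf h0 a

/-- UB -/
theorem ub : S_UB := by
  intro M f hf h0 hM S hS
  have hne : ∃ z, f z ≠ 0 := ⟨0, by intro h; rw [h, norm_zero] at h0; linarith⟩
  obtain ⟨S', g, hS', hg, -, -, hfac⟩ := zf f hf hne 1
  have hSS : S' = S := by
    ext a; rw [hS' a, hS a]
  rw [hSS] at hfac
  set N : ℕ := ∑ a ∈ S, analyticOrderNatAt f a with hN
  -- lower bound of the product on the circle
  have hg3 : ∀ z : ℂ, ‖z‖ = 3 → ‖g z‖ ≤ Real.exp M / 2 ^ N := by
    intro z hz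
    have h1 : (2 : ℝ) ^ N ≤ ‖∏ a ∈ S, (z - a) ^ (analyticOrderNatAt f a)‖ := by
      rw [norm_prod, hN, ← Finset.prod_pow_eq_pow_sum]
      apply Finset.prod_le_prod
      · intro i _; positivity
      · intro a ha
        rw [norm_pow]
        apply pow_le_pow_left₀ (by norm_num)
        have h2 : ‖a‖ ≤ 1 := ((hS a).1 ha).1
        have h3 : ‖z‖ - ‖a‖ ≤ ‖z - a‖ := norm_sub_norm_le z a
        linarith
    have h2 := hM z (by rw [hz])
    rw [hfac z, norm_mul] at h2
    rw [le_div_iff₀ (by positivity)]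
    calc ‖g z‖ * 2 ^ N ≤ ‖g z‖ * ‖∏ a ∈ S, (z - a) ^ (analyticOrderNatAt f a)‖ := by gcongr
      _ = ‖∏ a ∈ S, (z - a) ^ (analyticOrderNatAt f a)‖ * ‖g z‖ := mul_comm _ _
      _ ≤ Real.exp M := h2
  have hg0 : ‖g 0‖ ≤ Real.exp M / 2 ^ N := by
    apply Complex.norm_le_of_forall_mem_frontier_norm_le (U := Metric.ball (0 : ℂ) 3)
      Metric.isBounded_ball hg.diffContOnCl
    · intro z hz
      rw [frontier_ball (0 : ℂ) (by norm_num : (3 : ℝ) ≠ 0)] at hz
      exact hg3 z (by simpa using hz)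
    · apply subset_closure; simp
  have hf0 : ‖f 0‖ ≤ ‖g 0‖ := by
    rw [hfac 0, norm_mul]
    have h1 : ‖∏ a ∈ S, ((0 : ℂ) - a) ^ (analyticOrderNatAt f a)‖ ≤ 1 := by
      rw [norm_prod]
      apply Finset.prod_le_one
      · intro i _; positivity
      · intro a ha
        rw [norm_pow, zero_sub, norm_neg]
        exact pow_le_one₀ (norm_nonneg _) ((hS a).1 ha).1
    calc _ ≤ 1 * ‖g 0‖ := by gcongr
      _ = _ := one_mul _
  have h5 : (2 : ℝ) ^ N ≤ 2 * Real.exp M := by
    have h6 : 1 / 2 ≤ Real.exp M / 2 ^ N := le_trans h0 (le_trans hf0 hg0)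
    rw [le_div_iff₀ (by positivity)] at h6
    linarith
  have h7 : (N : ℝ) * Real.log 2 ≤ Real.log 2 + M := by
    have := Real.log_le_log (by positivity) h5
    rw [Real.log_pow, Real.log_mul (by norm_num) (by positivity), Real.log_exp] at this
    exact this
  have hl2 : (0.6931471803 : ℝ) < Real.log 2 := Real.log_two_gt_d9
  have hN' : (∑ a ∈ S, (analyticOrderNatAt f a : ℝ)) = (N : ℝ) := by
    rw [hN]; push_cast; rfl
  rw [hN']
  have hN0 : (0 : ℝ) ≤ N := Nat.cast_nonneg N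
  have hl3 : Real.log 2 < 0.6931471808 := Real.log_two_lt_d9
  nlinarith

end W536.XI
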